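import Pool.Agent.H349.QP.Cos

/-! Amalgamated products of groups of type `FP_n`. -/

set_option autoImplicit false

namespace Pool.Agent.H349.QP

open Pool.Agent.W326.DU (IL ZG)
open Pool.Agent.W571.DU
open Pool.Agent.TH18 Pool.Agent.TH18.NN Pool.Agent.TH18.VS

/-- `G` is the pushout of `A` and `B` over `C`. -/
structure IsAmal {A B C G : Type} [Group A] [Group B] [Group C] [Group G]
    (a : C →* A) (b : C →* B) (α : A →* G) (β : B →* G) : Prop where
  comm : ∀ c, α (a c) = β (b c)
  gen : ∀ K : Subgroup G, (∀ x, α x ∈ K) → (∀ x, β x ∈ K) → ∀ g, g ∈ K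
  lift : ∀ (K : Type) [Group K] (f : A →* K) (g : B →* K), (∀ c, f (a c) = g (b c)) →
    ∃ h : G →* K, (∀ x, h (α x) = f x) ∧ ∀ x, h (β x) = g x

section
variable {A B C G : Type} [Group A] [Group B] [Group C] [Group G]
  {a : C →* A} {b : C →* B} {α : A →* G} {β : B →* G}

/-- right translations, on the first coordinate -/
def Rt (G : Type) [Group G] : G →* Equiv.Perm (G × ℤ) where
  toFun g :=
    { toFun := fun p => (p.1 * g⁻¹, p.2)
      invFun := fun p => (p.1 * g, p.2)
      left_inv := fun p => by simp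
      right_inv := fun p => by simp }
  map_one' := by ext p <;> simp
  map_mul' g h := by ext p <;> simp [mul_assoc]

theorem Rt_apply (g : G) (p : G × ℤ) : Rt G g p = (p.1 * g⁻¹, p.2) := rfl

/-- shift of the second coordinate -/
def Sh (f : G → ℤ) : Equiv.Perm (G × ℤ) where
  toFun p := (p.1, p.2 + f p.1)
  invFun p := (p.1, p.2 - f p.1)
  left_inv p := by simp
  right_inv p := by simp

theorem Sh_apply (f : G → ℤ) (p : G × ℤ) : Sh f p = (p.1, p.2 + f p.1) := rfl
theorem Sh_inv_apply (f : G → ℤ) (p : G × ℤ) : (Sh f)⁻¹ p = (p.1, p.2 - f p.1) := rfl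

/-- every function on `G / C` is the difference of a function on `G / A` and a function on `G / B` -/
theorem IsAmal.split (h : IsAmal a b α β) (f : G → ℤ) (hf : ∀ x c, f (x * α (a c)) = f x) :
    ∃ F : G → ℤ, (∀ x y, F (x * α y) = F x) ∧
      ∀ x y, F (x * β y) - f (x * β y) = F x - f x := by
  obtain ⟨Φ, hα, hβ⟩ := h.lift (Equiv.Perm (G × ℤ)) ((Rt G).comp α)
    ((MulAut.conj (Sh f)).toMonoidHom.comp ((Rt G).comp β)) (by
      intro c
      ext p
      · show p.1 * (α (a c))⁻¹ = _
        show _ = p.1 * (β (b c))⁻¹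
        rw [h.comm]
      · show p.2 = p.2 - f p.1 + f (p.1 * (β (b c))⁻¹)
        rw [← h.comm, ← map_inv, ← map_inv, hf]; ring)
  have h1 : ∀ g : G, ∀ p, (Φ g p).1 = p.1 * g⁻¹ := by
    let K : Subgroup G :=
      { carrier := {g | ∀ p, (Φ g p).1 = p.1 * g⁻¹}
        mul_mem' := by
          intro x y hx hy p
          rw [map_mul, Equiv.Perm.mul_apply, hx, hy, mul_inv_rev, mul_assoc]
        one_mem' := by intro p; rw [map_one]; simp
        inv_mem' := by
          intro x hx p
          have h2 := hx (Φ x⁻¹ p)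
          rw [← Equiv.Perm.mul_apply, ← map_mul, mul_inv_cancel, map_one] at h2
          rw [inv_inv, show p.1 = _ from h2, inv_mul_cancel_right] }
    intro g
    refine h.gen K ?_ ?_ g
    · intro x p
      rw [hα]; rfl
    · intro x p
      rw [hβ]; rfl
  refine ⟨fun x => (Φ x⁻¹ (1, 0)).2, ?_, ?_⟩
  · intro x y
    show (Φ (x * α y)⁻¹ (1, 0)).2 = _
    rw [mul_inv_rev, map_mul, Equiv.Perm.mul_apply, ← map_inv, hα]
    rfl
  · intro x y
    show (Φ (x * β y)⁻¹ (1, 0)).2 - _ = _
    rw [mul_inv_rev, map_mul, Equiv.Perm.mul_apply, ← map_inv β, hβ]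
    have h2 : (Φ x⁻¹ (1, 0)).1 = x := by rw [h1]; simp
    show ((Φ x⁻¹ (1, 0)).2 - f (Φ x⁻¹ (1, 0)).1 + f ((Φ x⁻¹ (1, 0)).1 * (β y⁻¹)⁻¹)) - _ = _
    rw [h2, ← map_inv, inv_inv]
    ring

/-- pairing of a group ring element with a function -/
noncomputable def pair (F : G → ℤ) : ZG G →+ ℤ :=
  (Finsupp.liftAddHom (fun g : G => AddMonoidHom.mulRight (F g))).comp
    MonoidAlgebra.coeffAddEquiv.toAddMonoidHom

theorem pair_single (F : G → ℤ) (g : G) (r : ℤ) :
    pair F (MonoidAlgebra.single g r) = r * F g := by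
  show Finsupp.liftAddHom _ (MonoidAlgebra.single g r : ZG G).coeff = _
  rw [MonoidAlgebra.coeff_single, Finsupp.liftAddHom_apply_single]
  rfl

theorem pair_of (F : G → ℤ) (g : G) : pair F (MonoidAlgebra.of ℤ G g) = F g := by
  rw [MonoidAlgebra.of_apply, pair_single, one_mul]

theorem pair_sub (F H : G → ℤ) (x : ZG G) : pair (fun g => F g - H g) x = pair F x - pair H x := by
  induction x using MonoidAlgebra.induction_on with
  | of g => rw [pair_of, pair_of, pair_of]
  | add x y hx hy => rw [map_add, map_add, map_add, hx, hy]; ring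
  | smul r x hx => rw [map_zsmul, map_zsmul, map_zsmul, hx, smul_sub]

theorem pair_IL {A : Type} [Group A] (α : A →* G) (F : G → ℤ) (hF : ∀ x y, F (x * α y) = F x)
    (x : ZG G) (hx : x ∈ IL ℤ (α.range : Set G)) : pair F x = 0 := by
  have key : ∀ x ∈ IL ℤ (α.range : Set G), ∀ c : ZG G, pair F (c * x) = 0 := by
    intro x hx
    unfold IL at hx
    induction hx using Submodule.span_induction with
    | mem x hx =>
      intro c
      obtain ⟨_, ⟨y, rfl⟩, rfl⟩ := hx
      induction c using MonoidAlgebra.induction_on with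
      | of g =>
        rw [mul_sub, mul_one, ← map_mul, map_sub, pair_of, pair_of, hF, sub_self]
      | add a b ha hb => rw [add_mul, map_add, ha, hb, add_zero]
      | smul r a ha => rw [smul_mul_assoc, map_zsmul, ha, smul_zero]
    | zero => intro c; rw [mul_zero, map_zero]
    | add x y _ _ hx hy => intro c; rw [mul_add, map_add, hx, hy, add_zero]
    | smul b x _ hx => intro c; rw [smul_eq_mul, ← mul_assoc]; exact hx _
  have := key x hx 1
  rwa [one_mul] at this

/-- the augmentation of a coset component as a pairing -/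
theorem aug_pi {N : Type} [Group N] (ι : N →* G) (hι : Function.Injective ι) (g : G) (x : ZG G) :
    augR N (BC.pi ℤ ι hι g x) = pair (fun y => open Classical in if g⁻¹ * y ∈ ι.range then 1 else 0) x := by
  classical
  induction x using MonoidAlgebra.induction_on with
  | of y =>
    rw [pair_of]
    by_cases hy : g⁻¹ * y ∈ ι.range
    · rw [if_pos hy]
      obtain ⟨ν, hν⟩ := hy
      have : BC.pi ℤ ι hι g (MonoidAlgebra.of ℤ G y) = MonoidAlgebra.of ℤ N ν := by
        apply MonoidAlgebra.ext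
        ext z
        rw [BC.pi_coeff, MonoidAlgebra.of_apply, MonoidAlgebra.of_apply,
          MonoidAlgebra.coeff_single, MonoidAlgebra.coeff_single]
        rw [Finsupp.single_apply, Finsupp.single_apply]
        congr 1
        apply propext
        rw [← inv_mul_eq_iff_eq_mul, ← hν]
        exact ⟨fun h => hι h, fun h => by rw [h]⟩
      rw [this, augR_of]
    · rw [if_neg hy]
      have : BC.pi ℤ ι hι g (MonoidAlgebra.of ℤ G y) = 0 := by
        apply MonoidAlgebra.ext
        ext z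
        rw [BC.pi_coeff, MonoidAlgebra.of_apply, MonoidAlgebra.coeff_single, Finsupp.single_apply,
          if_neg]
        · rfl
        · intro h
          apply hy
          exact ⟨z, by rw [h, inv_mul_cancel_left]⟩
      rw [this, map_zero]
  | add x y hx hy => rw [map_add, map_add, map_add, hx, hy]
  | smul r x hx => rw [map_zsmul, map_zsmul, map_zsmul, hx]

theorem IsAmal.inter (h : IsAmal a b α β) (hinj : Function.Injective (α.comp a)) (x : ZG G)
    (hA : x ∈ IL ℤ (α.range : Set G)) (hB : x ∈ IL ℤ (β.range : Set G)) :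
    x ∈ IL ℤ ((α.comp a).range : Set G) := by
  classical
  apply mem_of_aug_pi (α.comp a) hinj
  intro g
  rw [aug_pi]
  obtain ⟨F, hF1, hF2⟩ := h.split (fun y => if g⁻¹ * y ∈ (α.comp a).range then 1 else 0) (by
    intro x c
    show (if g⁻¹ * (x * α (a c)) ∈ (α.comp a).range then (1 : ℤ) else 0) = _
    congr 1
    apply propext
    rw [← mul_assoc]
    exact Subgroup.mul_mem_cancel_right _ ⟨c, rfl⟩)
  have e1 : ∀ y, (if g⁻¹ * y ∈ (α.comp a).range then (1 : ℤ) else 0) =
      F y - (F y - (if g⁻¹ * y ∈ (α.comp a).range then (1 : ℤ) else 0)) := by intro y; ring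
  rw [show (fun y => if g⁻¹ * y ∈ (α.comp a).range then (1 : ℤ) else 0) = fun y =>
      F y - (F y - (if g⁻¹ * y ∈ (α.comp a).range then (1 : ℤ) else 0)) from funext e1, pair_sub,
    pair_IL α F hF1 x hA, pair_IL β _ hF2 x hB, sub_zero]

theorem IL_univ_of (h : IsAmal a b α β) :
    IL ℤ (Set.univ : Set G) ≤ IL ℤ (α.range : Set G) ⊔ IL ℤ (β.range : Set G) := by
  have h1 : ∀ g : G, MonoidAlgebra.of ℤ G g - 1 ∈ IL ℤ ((α.range : Set G) ∪ (β.range : Set G)) := by
    intro g
    apply Pool.Agent.W490.DU.of_sub_mem_IL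
    refine h.gen (Subgroup.closure _) ?_ ?_ g
    · intro x; exact Subgroup.subset_closure (Or.inl ⟨x, rfl⟩)
    · intro x; exact Subgroup.subset_closure (Or.inr ⟨x, rfl⟩)
  refine Submodule.span_le.2 ?_
  rintro _ ⟨g, _, rfl⟩
  have h2 : IL ℤ ((α.range : Set G) ∪ (β.range : Set G)) ≤
      IL ℤ (α.range : Set G) ⊔ IL ℤ (β.range : Set G) := by
    refine Submodule.span_le.2 ?_
    rintro _ ⟨g, hg | hg, rfl⟩
    · exact Submodule.mem_sup_left (Submodule.subset_span ⟨g, hg, rfl⟩)
    · exact Submodule.mem_sup_right (Submodule.subset_span ⟨g, hg, rfl⟩)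
  exact h2 (h1 g)

theorem IL_le_univ (S : Set G) : IL ℤ S ≤ IL ℤ (Set.univ : Set G) :=
  Submodule.span_mono (by rintro _ ⟨g, _, rfl⟩; exact ⟨g, trivial, rfl⟩)

/-- `0 → ℤ[G/C] → ℤ[G/A] ⊕ ℤ[G/B] → ℤ → 0` -/
theorem IsAmal.fp (h : IsAmal a b α β) (hα : Function.Injective α) (hβ : Function.Injective β)
    (ha : Function.Injective a) {n : ℕ}
    (hC : FPg n C) (hA : FPg (n + 1) A) (hB : FPg (n + 1) B) : FPg (n + 1) G := by
  have hinj : Function.Injective (α.comp a) := hα.comp ha
  have eC := cos_FP (α.comp a) hinj hC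
  have eA := cos_FP α hα hA
  have eB := cos_FP β hβ hB
  have lCA : IL ℤ ((α.comp a).range : Set G) ≤ IL ℤ (α.range : Set G) :=
    Submodule.span_mono (by rintro _ ⟨_, ⟨c, rfl⟩, rfl⟩; exact ⟨_, ⟨a c, rfl⟩, rfl⟩)
  have lCB : IL ℤ ((α.comp a).range : Set G) ≤ IL ℤ (β.range : Set G) :=
    Submodule.span_mono (by
      rintro _ ⟨_, ⟨c, rfl⟩, rfl⟩; exact ⟨_, ⟨b c, (h.comm c).symm⟩, rfl⟩)
  let i : (ZG G ⧸ IL ℤ ((α.comp a).range : Set G)) →ₗ[ZG G]
      (ZG G ⧸ IL ℤ (α.range : Set G)) × (ZG G ⧸ IL ℤ (β.range : Set G)) :=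
    LinearMap.prod (Submodule.factor lCA) (- Submodule.factor lCB)
  have lA : IL ℤ (α.range : Set G) ≤ LinearMap.ker (augL G) := by
    rw [ker_augL]; exact IL_le_univ _
  have lB : IL ℤ (β.range : Set G) ≤ LinearMap.ker (augL G) := by
    rw [ker_augL]; exact IL_le_univ _
  let p : (ZG G ⧸ IL ℤ (α.range : Set G)) × (ZG G ⧸ IL ℤ (β.range : Set G)) →ₗ[ZG G] Tr G :=
    LinearMap.coprod (Submodule.liftQ _ (augL G) lA) (Submodule.liftQ _ (augL G) lB)
  have hi : ∀ x : ZG G, i (Submodule.Quotient.mk x) =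
      (Submodule.Quotient.mk x, - Submodule.Quotient.mk x) := fun x => rfl
  have hp : ∀ x y : ZG G, p (Submodule.Quotient.mk x, Submodule.Quotient.mk y) =
      augL G x + augL G y := fun x y => rfl
  refine FPm.quot i p ?_ ?_ ?_ eC (FPm.prod eA eB)
  · rw [injective_iff_map_eq_zero]
    intro z hz
    obtain ⟨z, rfl⟩ := Submodule.Quotient.mk_surjective _ z
    rw [hi, Prod.mk_eq_zero, neg_eq_zero, Submodule.Quotient.mk_eq_zero,
      Submodule.Quotient.mk_eq_zero] at hz
    rw [Submodule.Quotient.mk_eq_zero]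
    exact h.inter hinj z hz.1 hz.2
  · intro z
    obtain ⟨x, hx⟩ := augL_surj G z
    exact ⟨(Submodule.Quotient.mk x, Submodule.Quotient.mk 0), by rw [hp, hx, map_zero, add_zero]⟩
  · apply le_antisymm
    · rintro _ ⟨z, rfl⟩
      obtain ⟨z, rfl⟩ := Submodule.Quotient.mk_surjective _ z
      rw [hi, LinearMap.mem_ker, ← Submodule.Quotient.mk_neg, hp, map_neg, add_neg_cancel]
    · rintro ⟨x, y⟩ hz
      obtain ⟨x, rfl⟩ := Submodule.Quotient.mk_surjective _ x
      obtain ⟨y, rfl⟩ := Submodule.Quotient.mk_surjective _ y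
      rw [LinearMap.mem_ker, hp, ← map_add] at hz
      have h1 : x + y ∈ IL ℤ (Set.univ : Set G) := by
        rw [← ker_augL]; exact hz
      obtain ⟨u, hu, v, hv, huv⟩ := Submodule.mem_sup.1 (IL_univ_of h h1)
      refine ⟨Submodule.Quotient.mk (x - u), ?_⟩
      rw [hi, Prod.mk.injEq]
      constructor
      · rw [Submodule.Quotient.mk_sub, (Submodule.Quotient.mk_eq_zero _).2 hu, sub_zero]
      · have : -(x - u) = y - v := by
          have : u = x + y - v := by rw [← huv]; abel
          rw [this]; abel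
        rw [← Submodule.Quotient.mk_neg, this, Submodule.Quotient.mk_sub,
          (Submodule.Quotient.mk_eq_zero _).2 hv, sub_zero]

end

end Pool.Agent.H349.QP
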