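import Pool.Graph.R_pool_sql_team_seeded_ab47071d.TH18.VS.Basic

/-! The coset module `ℤ[G/N] = ℤG / ℤG·I_N` of a subgroup of type `FP_n` is of type `FP_n`. -/

set_option autoImplicit false

namespace Pool.Agent.H349.QP

open Pool.Agent.W326.DU (IL ZG)
open Pool.Agent.W571.DU
open Pool.Agent.TH18 Pool.Agent.TH18.NN Pool.Agent.TH18.VS

section coset
variable {N G : Type} [Group N] [Group G] (ι : N →* G) (hι : Function.Injective ι)

theorem range_eq_image : (ι.range : Set G) = ι '' Set.univ := by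
  rw [Set.image_univ]; rfl

include hι in
theorem aug_pi_of_mem (x : ZG G) (hx : x ∈ IL ℤ (ι.range : Set G)) (g : G) :
    augR N (BC.pi ℤ ι hι g x) = 0 := by
  rw [range_eq_image] at hx
  have h1 := BC.pi_mem ℤ ι hι Set.univ x hx 1 g
  rw [one_mul, ← ker_augL] at h1
  exact h1

include hι in
theorem mem_of_aug_pi (x : ZG G) (hx : ∀ g, augR N (BC.pi ℤ ι hι g x) = 0) :
    x ∈ IL ℤ (ι.range : Set G) := by
  classical
  rw [BC.decomp ℤ ι hι x]
  refine Submodule.sum_mem _ fun q _ => ?_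
  rw [← smul_eq_mul]
  apply Submodule.smul_mem
  rw [range_eq_image]
  apply BC.map_mem
  rw [← ker_augL]
  exact hx _

/-- the map of the free module onto the coset module -/
noncomputable def cosL (a : ℕ) : (Fin a → ZG G) →ₗ[ZG G] (ZG G ⧸ IL ℤ (ι.range : Set G)) :=
  (Submodule.mkQ _) ∘ₗ (Fintype.linearCombination (ZG G) (fun _ : Fin a => (1 : ZG G)))

theorem cosL_apply (a : ℕ) (x : Fin a → ZG G) :
    cosL ι a x = Submodule.Quotient.mk (∑ i, x i) := by
  unfold cosL
  rw [LinearMap.comp_apply, Fintype.linearCombination_apply, Submodule.mkQ_apply]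
  congr 1
  exact Finset.sum_congr rfl fun i _ => by rw [smul_eq_mul, mul_one]

theorem sum_vm {a : ℕ} (v : Fin a → ZG N) : ∑ i, (vm (push ι) v) i = push ι (∑ i, v i) := by
  rw [map_sum]; rfl

theorem tot_eq {a : ℕ} (v : Fin a → ZG N) : tot v = augR N (∑ i, v i) := by
  rw [map_sum]; rfl

include hι in
theorem cosL_ker (a : ℕ) (x : Fin a → ZG G) :
    cosL ι a x = 0 ↔ ∀ g, tot (pv ι hι g x) = 0 := by
  rw [cosL_apply, Submodule.Quotient.mk_eq_zero]
  have key : ∀ g, tot (pv ι hι g x) = augR N (BC.pi ℤ ι hι g (∑ i, x i)) := by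
    intro g
    rw [tot_eq, map_sum (BC.pi ℤ ι hι g)]
    rfl
  constructor
  · intro h g
    rw [key]
    exact aug_pi_of_mem ι hι _ h g
  · intro h
    apply mem_of_aug_pi ι hι
    intro g
    rw [← key]
    exact h g

include hι in
theorem cos_ex0 {n : ℕ} (F : NRes N (n + 1)) (x : Fin (F.k 0) → ZG G) :
    cosL ι (F.k 0) x = 0 ↔ ∃ y, ind (push ι) (F.d 0) y = x := by
  rw [cosL_ker ι hι]
  constructor
  · intro h
    obtain ⟨Q, hQ⟩ := pv_decomp ι hι x
    have h1 : ∀ q, ∃ y, ind (push ι) (F.d 0) y = MonoidAlgebra.of ℤ G q • vm (push ι) (pv ι hι q x) := by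
      intro q
      obtain ⟨y, hy⟩ := (F.ex0 (Nat.succ_pos n) _).1 (h q)
      exact ⟨MonoidAlgebra.of ℤ G q • vm (push ι) y, by rw [map_smul, ind_vm, hy]⟩
    choose y hy using h1
    refine ⟨∑ q ∈ Q, y q.out, ?_⟩
    rw [map_sum]
    conv_rhs => rw [hQ]
    exact Finset.sum_congr rfl fun q _ => hy _
  · rintro ⟨y, rfl⟩ g
    rw [pv_ind]
    exact (F.ex0 (Nat.succ_pos n) _).2 ⟨_, rfl⟩

/-- the complex -/
noncomputable def CX {n : ℕ} (F : NRes N (n + 1)) : ℕ → ModuleCat.{0} (ZG G)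
  | 0 => ModuleCat.of (ZG G) (ZG G ⧸ IL ℤ (ι.range : Set G))
  | j + 1 => ModuleCat.of (ZG G) (Fin (F.k j) → ZG G)

noncomputable def cd {n : ℕ} (F : NRes N (n + 1)) : ∀ j, CX ι F (j + 1) →ₗ[ZG G] CX ι F j
  | 0 => cosL ι (F.k 0)
  | j + 1 => ind (push ι) (F.d j)

include hι in
theorem cos_fp {n : ℕ} (F : NRes N (n + 1)) :
    FPm (ZG G) (n + 1) (ZG G ⧸ IL ℤ (ι.range : Set G)) := by
  refine fpm_of_complex (CX ι F) (cd ι F) (n + 1) ?_ ?_ ?_
  · -- surjective
    intro z
    obtain ⟨z, rfl⟩ := Submodule.Quotient.mk_surjective _ z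
    obtain ⟨x0, hx0⟩ := F.one
    have h0 : 0 < F.k 0 := by
      rcases Nat.eq_zero_or_pos (F.k 0) with h | h
      · exfalso
        have : IsEmpty (Fin (F.k 0)) := by rw [h]; infer_instance
        unfold tot at hx0
        rw [Finset.univ_eq_empty, Finset.sum_empty] at hx0
        exact zero_ne_one hx0
      · exact h
    refine ⟨(Pi.single ⟨0, h0⟩ z : Fin (F.k 0) → ZG G), ?_⟩
    show cosL ι (F.k 0) _ = _
    rw [cosL_apply]
    congr 1
    rw [Finset.sum_eq_single ⟨0, h0⟩]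
    · rw [Pi.single_eq_same]
    · intro j _ hj
      rw [Pi.single_eq_of_ne hj]
    · intro h; exact absurd (Finset.mem_univ _) h
  · intro j hj x
    cases j with
    | zero => exact cos_ex0 ι hι F x
    | succ j =>
      exact ind_exact ι hι (F.d j) (F.d (j + 1)) (F.ex j (by omega)) x
  · intro j _ l
    exact FPm.free l _

include hι in
/-- the coset module of a group of type `FP_n` -/
theorem cos_FP {n : ℕ} (h : FPg n N) : FPm (ZG G) n (ZG G ⧸ IL ℤ (ι.range : Set G)) := by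
  cases n with
  | zero =>
    rw [fpm_zero]; infer_instance
  | succ n =>
    obtain ⟨F⟩ := fpm_res h
    exact cos_fp ι hι F

end coset

end Pool.Agent.H349.QP
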