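import Pool.Agent.H349.QP.Main
import Pool.Graph.R_pool_sql_team_seeded_ab47071d.TH18.VS.Fib

/-! The induction over the set of factors. -/

set_option autoImplicit false

namespace Pool.Agent.H349.QP

open Monoid
open Pool.Agent.TH18 Pool.Agent.TH18.NN Pool.Agent.TH18.VS

/-- type `F_n` in the form in which it is proved -/
def PF (n : ℕ) (G : Type) [Group G] : Prop := FPg n G ∧ (2 ≤ n → FPres G)

theorem PF.fg {n : ℕ} {G : Type} [Group G] (h : PF n G) (hn : 1 ≤ n) : Group.FG G :=
  FPg.fg (FPg.mono hn h.1)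

theorem PF.finite (n : ℕ) (G : Type) [Group G] [Finite G] : PF n G :=
  ⟨FPg.of_finite G n, fun _ => FPres.of_finite G⟩

theorem PF.semi {n : ℕ} {N H : Type} [Group N] [Group H] (φ : H →* MulAut N) (hN : PF n N)
    (hH : PF n H) : PF n (N ⋊[φ] H) := by
  have hker : ∀ g : N ⋊[φ] H, SemidirectProduct.rightHom g = 1 ↔
      ∃ ν, SemidirectProduct.inl ν = g := by
    intro g
    constructor
    · intro h
      have : g ∈ (SemidirectProduct.rightHom : N ⋊[φ] H →* H).ker := h
      rw [← SemidirectProduct.range_inl_eq_ker_rightHom] at this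
      exact this
    · rintro ⟨ν, rfl⟩
      exact SemidirectProduct.rightHom_inl ν
  exact ⟨FPg.ext SemidirectProduct.inl SemidirectProduct.inl_injective SemidirectProduct.rightHom
      SemidirectProduct.rightHom_surjective hker hN.1 hH.1,
    fun hn => FPres.ext SemidirectProduct.inl SemidirectProduct.inl_injective
      SemidirectProduct.rightHom SemidirectProduct.rightHom_surjective hker (hN.2 hn) (hH.2 hn)⟩

theorem PF.amal {A B C G : Type} [Group A] [Group B] [Group C] [Group G]
    {a : C →* A} {b : C →* B} {α : A →* G} {β : B →* G} (h : IsAmal a b α β)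
    (ha : Function.Injective a) (hb : Function.Injective b) {n : ℕ} (hC : PF n C) (hA : PF n A)
    (hB : PF n B) : PF n G := by
  obtain ⟨hα, hβ⟩ := h.inj ha hb
  cases n with
  | zero => exact ⟨FPg.zero G, fun h => absurd h (by omega)⟩
  | succ n =>
    exact ⟨h.fp hα hβ ha (FPg.mono (Nat.le_succ n) hC.1) hA.1 hB.1,
      fun hn => h.fpres (hC.fg (by omega)) (hA.2 hn) (hB.2 hn)⟩

variable {ι : Type} {G : ι → Type} [∀ i, Group (G i)] (S : Sys ι G)

theorem Sys.exists_max (A : Set ι) (hA : A.Finite) (hne : A.Nonempty) :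
    ∃ T ∈ A, ∀ j ∈ A, ¬ S.lt T j := by
  have : IsStrictOrder ι (fun i j => S.lt j i) :=
    { irrefl := S.lt_irrefl, trans := fun a b c h1 h2 => S.lt_trans c b a h2 h1 }
  have wf := hA.wellFoundedOn (r := fun i j => S.lt j i)
  obtain ⟨x, hx⟩ := hne
  obtain ⟨m, _, hm⟩ := WellFounded.has_min wf Set.univ ⟨⟨x, hx⟩, trivial⟩
  exact ⟨m.1, m.2, fun j hj h => hm ⟨j, hj⟩ trivial h⟩

theorem Sys.inc_self {D : Set ι} (h : D ⊆ D) (hD : S.DC D) : S.inc h hD = MonoidHom.id _ := by
  apply S.hom_ext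
  intro x hx
  rw [S.inc_e h hD x hx]; rfl

theorem Sys.inc_comp {D D' D'' : Set ι} (h : D ⊆ D') (h' : D' ⊆ D'') (hD : S.DC D) (hD' : S.DC D') :
    (S.inc h' hD').comp (S.inc h hD) = S.inc (h.trans h') hD := by
  apply S.hom_ext
  intro x hx
  rw [MonoidHom.comp_apply, S.inc_e h hD x hx, S.inc_e h' hD' x (h hx), S.inc_e (h.trans h') hD x hx]

/-- **The induction.** -/
theorem Sys.main (hns : S.NS) (n : ℕ) (hG : ∀ i, PF n (G i)) : ∀ (m : ℕ) (D : Set ι), D.Finite →
    D.ncard ≤ m → S.DC D → PF n (S.Q D) ∧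
      ∀ (D0 : Set ι) (h : D0 ⊆ D) (hD0 : S.DC D0), Function.Injective (S.inc h hD0) := by
  intro m
  induction m with
  | zero =>
    intro D hfin hcard hD
    have hDe : D = ∅ := (Set.ncard_eq_zero hfin).1 (Nat.le_zero.1 hcard)
    subst hDe
    have hsub : ∀ g : S.Q ∅, g = 1 := by
      intro g
      have := S.gen ∅ ⊥ (fun x hx => absurd hx (Set.notMem_empty _)) g
      exact this
    have : Subsingleton (S.Q ∅) := ⟨fun a b => by rw [hsub a, hsub b]⟩
    have : Finite (S.Q ∅) := inferInstance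
    refine ⟨PF.finite n _, ?_⟩
    intro D0 h hD0
    obtain rfl : D0 = ∅ := Set.subset_empty_iff.1 h
    rw [S.inc_self]
    exact Function.injective_id
  | succ m ih =>
    intro D hfin hcard hD
    -- the step for one maximal element
    have step : ∀ T ∈ D, (∀ j ∈ D, ¬ S.lt T j) → PF n (S.Q D) ∧
        ∀ (hr : S.DC (rm D T)), Function.Injective (S.inc (rm_sub (D := D) (T := T)) hr) ∧
        ∀ (D0 : Set ι) (h : D0 ⊆ rm D T) (hD0 : S.DC D0), Function.Injective (S.inc h hD0) := by
      intro T hT hmax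
      have hlt : (rm D T).ncard ≤ m := by
        have h1 : (rm D T).ncard < D.ncard :=
          Set.ncard_lt_ncard ⟨rm_sub, fun h => (h hT).2 rfl⟩ hfin
        omega
      have hrfin : (rm D T).Finite := hfin.subset rm_sub
      have hlkc : (S.lk D T).ncard ≤ m :=
        (Set.ncard_le_ncard (S.lk_sub_rm hns) hrfin).trans hlt
      obtain ⟨hA, hA'⟩ := ih (rm D T) hrfin hlt (S.rm_dc hD hmax)
      obtain ⟨hC, _⟩ := ih (S.lk D T) (hfin.subset S.lk_sub) hlkc (S.lk_dc hD)
      have hinj := hA' (S.lk D T) (S.lk_sub_rm hns) (S.lk_dc hD)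
      have ham := S.amal hD hT hmax hns
      refine ⟨PF.amal ham hinj SemidirectProduct.inl_injective hC hA
        (PF.semi _ hC (hG T)), fun hr => ⟨?_, hA'⟩⟩
      exact (ham.inj hinj SemidirectProduct.inl_injective).1
    rcases Set.eq_empty_or_nonempty D with hDe | hne
    · exact ih D hfin (by rw [hDe, Set.ncard_empty]; omega) hD
    · obtain ⟨T, hT, hmax⟩ := S.exists_max D hfin hne
      refine ⟨(step T hT hmax).1, ?_⟩
      intro D0 h hD0
      by_cases hDD : D ⊆ D0
      · obtain rfl : D0 = D := Set.Subset.antisymm h hDD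
        rw [S.inc_self]
        exact Function.injective_id
      · have hne' : (D \ D0).Nonempty := Set.sdiff_nonempty.2 hDD
        obtain ⟨U, hU, hUmax⟩ := S.exists_max (D \ D0) (hfin.subset Set.sdiff_subset) hne'
        have hUm : ∀ j ∈ D, ¬ S.lt U j := by
          intro j hj hlt
          by_cases hj0 : j ∈ D0
          · exact hU.2 (hD0 j hj0 U hlt)
          · exact hUmax j ⟨hj, hj0⟩ hlt
        have h1 : D0 ⊆ rm D U := fun i hi => ⟨h hi, by rintro rfl; exact hU.2 hi⟩
        have hr := S.rm_dc hD hUm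
        obtain ⟨_, h2⟩ := step U hU.1 hUm
        obtain ⟨h3, h4⟩ := h2 hr
        have h5 := S.inc_comp h1 rm_sub hD0 hr
        rw [← h5]
        exact h3.comp (h4 D0 h1 hD0)

/-- the whole quandle product -/
theorem Sys.final [Finite ι] (hns : S.NS) (n : ℕ) (hG : ∀ i, PF n (G i)) :
    PF n (S.Q Set.univ) :=
  (S.main hns n hG _ Set.univ Set.finite_univ le_rfl (fun _ _ _ _ => trivial)).1

end Pool.Agent.H349.QP
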