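import Pool.Agent.H349.QP.Am

/-! Injectivity of the factors of an amalgamated product; finite presentability. -/

set_option autoImplicit false

namespace Pool.Agent.H349.QP

open Pool.Agent.TH18 Pool.Agent.TH18.NN Pool.Agent.TH18.VS

section
variable (A B : Type) 

/-- the family of the two factors -/
def Fam : Bool → Type
  | true => A
  | false => B

variable [Group A] [Group B]

instance famGroup : ∀ i, Group (Fam A B i)
  | true => inferInstanceAs (Group A)
  | false => inferInstanceAs (Group B)

end

section
variable {A B C G : Type} [Group A] [Group B] [Group C] [Group G]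
  {a : C →* A} {b : C →* B} {α : A →* G} {β : B →* G}

/-- the two maps -/
def famMap (a : C →* A) (b : C →* B) : ∀ i, C →* Fam A B i
  | true => a
  | false => b

theorem IsAmal.inj (h : IsAmal a b α β) (ha : Function.Injective a) (hb : Function.Injective b) :
    Function.Injective α ∧ Function.Injective β := by
  have hφ : ∀ i, Function.Injective (famMap a b i) := by
    intro i
    cases i
    · exact hb
    · exact ha
  obtain ⟨Φ, h1, h2⟩ := h.lift (Monoid.PushoutI (famMap a b))
    (Monoid.PushoutI.of (φ := famMap a b) true) (Monoid.PushoutI.of (φ := famMap a b) false) (by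
      intro c
      exact (Monoid.PushoutI.of_apply_eq_base (famMap a b) true c).trans
        (Monoid.PushoutI.of_apply_eq_base (famMap a b) false c).symm)
  constructor
  · intro x y hxy
    exact Monoid.PushoutI.of_injective hφ true
      ((h1 x).symm.trans ((congrArg Φ hxy).trans (h1 y)))
  · intro x y hxy
    exact Monoid.PushoutI.of_injective hφ false
      ((h2 x).symm.trans ((congrArg Φ hxy).trans (h2 y)))

theorem IsAmal.uniq (h : IsAmal a b α β) {K : Type} [Group K] (f g : G →* K)
    (h1 : ∀ x, f (α x) = g (α x)) (h2 : ∀ x, f (β x) = g (β x)) : f = g := by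
  ext x
  exact h.gen (MonoidHom.eqLocus f g) h1 h2 x

/-- finitely generated -/
theorem IsAmal.fg (h : IsAmal a b α β) (hA : Group.FG A) (hB : Group.FG B) : Group.FG G := by
  classical
  obtain ⟨S, hS⟩ := Group.fg_def.1 hA
  obtain ⟨T, hT⟩ := Group.fg_def.1 hB
  refine Group.fg_def.2 ⟨S.image α ∪ T.image β, ?_⟩
  rw [eq_top_iff]
  intro g _
  refine h.gen _ ?_ ?_ g
  · intro x
    have hx : x ∈ Subgroup.closure (S : Set A) := by rw [hS]; trivial
    have h2 : (Subgroup.closure (S : Set A)).map α ≤
        Subgroup.closure (↑(S.image α ∪ T.image β) : Set G) := by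
      rw [MonoidHom.map_closure]
      apply Subgroup.closure_mono
      rw [Finset.coe_union, Finset.coe_image]
      exact Set.subset_union_left
    exact h2 ⟨x, hx, rfl⟩
  · intro x
    have hx : x ∈ Subgroup.closure (T : Set B) := by rw [hT]; trivial
    have h2 : (Subgroup.closure (T : Set B)).map β ≤
        Subgroup.closure (↑(S.image α ∪ T.image β) : Set G) := by
      rw [MonoidHom.map_closure]
      apply Subgroup.closure_mono
      rw [Finset.coe_union, Finset.coe_image, Finset.coe_image]
      exact Set.subset_union_right
    exact h2 ⟨x, hx, rfl⟩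

/-- finitely presented -/
theorem IsAmal.fpres (h : IsAmal a b α β) (hC : Group.FG C) (hA : FPres A) (hB : FPres B) :
    FPres G := by
  classical
  obtain ⟨r, f, S, hf, hS⟩ := hA
  obtain ⟨s, g, T, hg, hT⟩ := hB
  obtain ⟨U, hU⟩ := Group.fg_def.1 hC
  let X : Type := Fin r ⊕ Fin s
  let iA : FreeGroup (Fin r) →* FreeGroup X := FreeGroup.map Sum.inl
  let iB : FreeGroup (Fin s) →* FreeGroup X := FreeGroup.map Sum.inr
  let F : FreeGroup X →* G := FreeGroup.lift (Sum.elim (fun i => α (f (FreeGroup.of i)))
    (fun i => β (g (FreeGroup.of i))))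
  have hFA : ∀ x, F (iA x) = α (f x) := by
    intro x
    have : F.comp iA = α.comp f := by
      apply FreeGroup.ext_hom
      intro i
      show F (FreeGroup.map Sum.inl (FreeGroup.of i)) = _
      rw [FreeGroup.map.of]
      show FreeGroup.lift _ (FreeGroup.of _) = _
      rw [FreeGroup.lift_apply_of]
      rfl
    exact DFunLike.congr_fun this x
  have hFB : ∀ x, F (iB x) = β (g x) := by
    intro x
    have : F.comp iB = β.comp g := by
      apply FreeGroup.ext_hom
      intro i
      show F (FreeGroup.map Sum.inr (FreeGroup.of i)) = _
      rw [FreeGroup.map.of]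
      show FreeGroup.lift _ (FreeGroup.of _) = _
      rw [FreeGroup.lift_apply_of]
      rfl
    exact DFunLike.congr_fun this x
  choose uA huA using fun c : C => hf (a c)
  choose uB huB using fun c : C => hg (b c)
  let W : Finset (FreeGroup X) := S.image iA ∪ T.image iB ∪
    U.image (fun c => iA (uA c) * (iB (uB c))⁻¹)
  refine FPres.of_type F W ?_ ?_
  · intro x
    refine h.gen F.range ?_ ?_ x
    · intro x
      obtain ⟨y, rfl⟩ := hf x
      exact ⟨iA y, hFA y⟩
    · intro x
      obtain ⟨y, rfl⟩ := hg x
      exact ⟨iB y, hFB y⟩
  · apply le_antisymm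
    · -- construct the inverse
      let Q := FreeGroup X ⧸ Subgroup.normalClosure (↑W : Set (FreeGroup X))
      let q : FreeGroup X →* Q := QuotientGroup.mk' _
      have hq : ∀ w ∈ W, q w = 1 := by
        intro w hw
        exact (QuotientGroup.eq_one_iff _).2 (Subgroup.subset_normalClosure hw)
      have kA : f.ker ≤ (q.comp iA).ker := by
        rw [hS]
        apply Subgroup.normalClosure_le_normal
        intro x hx
        show q (iA x) = 1
        apply hq
        exact Finset.mem_union_left _ (Finset.mem_union_left _ (Finset.mem_image_of_mem _ hx))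
      have kB : g.ker ≤ (q.comp iB).ker := by
        rw [hT]
        apply Subgroup.normalClosure_le_normal
        intro x hx
        show q (iB x) = 1
        apply hq
        exact Finset.mem_union_left _ (Finset.mem_union_right _ (Finset.mem_image_of_mem _ hx))
      let fA : A →* Q := (f.liftOfSurjective hf) ⟨q.comp iA, kA⟩
      let fB : B →* Q := (g.liftOfSurjective hg) ⟨q.comp iB, kB⟩
      have hfA : ∀ x, fA (f x) = q (iA x) := fun x => f.liftOfRightInverse_comp_apply _ _ ⟨q.comp iA, kA⟩ x
      have hfB : ∀ x, fB (g x) = q (iB x) := fun x => g.liftOfRightInverse_comp_apply _ _ ⟨q.comp iB, kB⟩ x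
      have hag : ∀ c, fA (a c) = fB (b c) := by
        intro c
        have hc : c ∈ Subgroup.closure (U : Set C) := by rw [hU]; trivial
        have : Subgroup.closure (U : Set C) ≤ MonoidHom.eqLocus (fA.comp a) (fB.comp b) := by
          rw [Subgroup.closure_le]
          intro c hc
          show fA (a c) = fB (b c)
          rw [← huA, ← huB, hfA, hfB]
          have h3 : q (iA (uA c) * (iB (uB c))⁻¹) = 1 := by
            apply hq
            exact Finset.mem_union_right _ (Finset.mem_image_of_mem _ hc)
          rw [map_mul, map_inv, mul_inv_eq_one] at h3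
          exact h3
        exact this hc
      obtain ⟨Φ, hΦA, hΦB⟩ := h.lift Q fA fB hag
      have hΦ : Φ.comp F = q := by
        apply FreeGroup.ext_hom
        intro i
        rcases i with i | i
        · have e1 : (FreeGroup.of (Sum.inl i) : FreeGroup X) = iA (FreeGroup.of i) :=
            FreeGroup.map.of.symm
          rw [MonoidHom.comp_apply, e1, hFA, hΦA, hfA]
        · have e1 : (FreeGroup.of (Sum.inr i) : FreeGroup X) = iB (FreeGroup.of i) :=
            FreeGroup.map.of.symm
          rw [MonoidHom.comp_apply, e1, hFB, hΦB, hfB]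
      intro x hx
      have h4 : q x = 1 := by
        rw [← hΦ, MonoidHom.comp_apply, (show F x = 1 from hx), map_one]
      exact (QuotientGroup.eq_one_iff _).1 h4
    · apply Subgroup.normalClosure_le_normal
      intro w hw
      show F w = 1
      rcases Finset.mem_union.1 (Finset.mem_coe.1 hw) with hw | hw
      · rcases Finset.mem_union.1 hw with hw | hw
        · obtain ⟨x, hx, rfl⟩ := Finset.mem_image.1 hw
          rw [hFA]
          have : x ∈ f.ker := by rw [hS]; exact Subgroup.subset_normalClosure hx
          rw [(show f x = 1 from this), map_one]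
        · obtain ⟨x, hx, rfl⟩ := Finset.mem_image.1 hw
          rw [hFB]
          have : x ∈ g.ker := by rw [hT]; exact Subgroup.subset_normalClosure hx
          rw [(show g x = 1 from this), map_one]
      · obtain ⟨c, _, rfl⟩ := Finset.mem_image.1 hw
        rw [map_mul, map_inv, hFA, hFB, huA, huB, h.comm, mul_inv_cancel]

end

end Pool.Agent.H349.QP
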