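import Pool.Agent.H349.QP.Sys
import Pool.Graph.R_pool_sql_team_seeded_ab47071d.TH18.VS.Nil

/-! Quandle products are iterated amalgamated products; finiteness properties. -/

set_option autoImplicit false

namespace Pool.Agent.H349.QP

open Monoid
open Pool.Agent.TH18 Pool.Agent.TH18.NN Pool.Agent.TH18.VS

variable {ι : Type} {G : ι → Type} [∀ i, Group (G i)] (S : Sys ι G)

section step
variable {D : Set ι} (hD : S.DC D) {T : ι} (hT : T ∈ D) (hmax : ∀ j ∈ D, ¬ S.lt T j)

/-- the factors of `D` below `T` or disjoint from `T` -/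
def Sys.lk (S : Sys ι G) (D : Set ι) (T : ι) : Set ι := {i | i ∈ D ∧ (S.lt i T ∨ S.dj i T)}

/-- `D` without `T` -/
def rm (D : Set ι) (T : ι) : Set ι := {i | i ∈ D ∧ i ≠ T}

theorem Sys.lk_or : ∀ i ∈ S.lk D T, S.lt i T ∨ S.dj i T := fun _ h => h.2

include hD in
theorem Sys.lk_dc : S.DC (S.lk D T) := by
  intro i hi j hj
  refine ⟨hD i hi.1 j hj, ?_⟩
  rcases hi.2 with h | h
  · exact Or.inl (S.lt_trans _ _ _ hj h)
  · exact Or.inr (S.dj_lt _ _ _ hj h)

include hD hT in
theorem Sys.lk_lt : ∀ i, S.lt i T → i ∈ S.lk D T := fun i hi => ⟨hD T hT i hi, Or.inl hi⟩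

include hD hmax in
theorem Sys.rm_dc : S.DC (rm D T) := by
  intro i hi j hj
  refine ⟨hD i hi.1 j hj, ?_⟩
  rintro rfl
  exact hmax i hi.1 hj

theorem rm_sub : rm D T ⊆ D := fun _ h => h.1

theorem Sys.lk_sub : S.lk D T ⊆ D := fun _ h => h.1

/-- disjointness from oneself is impossible for the elements of `lk`; `T` may be disjoint from
itself in an abstract system -/
def Sys.NS (S : Sys ι G) : Prop := ∀ i, ¬ S.dj i i

theorem Sys.lk_sub_rm (hns : S.NS) : S.lk D T ⊆ rm D T := by
  intro i hi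
  refine ⟨hi.1, ?_⟩
  rintro rfl
  rcases hi.2 with h | h
  · exact S.lt_irrefl _ h
  · exact hns _ h

/-- conjugation by the maximal factor -/
theorem Sys.conj (h : G T) (q : S.Q (S.lk D T)) :
    S.inc S.lk_sub (S.lk_dc hD) (S.theta S.lk_or (S.lk_dc hD)
      (S.lk_lt hD hT) h q) =
    S.e D ⟨T, h⟩ * S.inc S.lk_sub (S.lk_dc hD) q *
      (S.e D ⟨T, h⟩)⁻¹ := by
  have hsub : S.lk D T ⊆ D := S.lk_sub
  -- both sides are homomorphisms in q
  have key : (S.inc hsub (S.lk_dc hD)).comp
      (S.theta S.lk_or (S.lk_dc hD) (S.lk_lt hD hT) h).toMonoidHom =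
      (MulAut.conj (S.e D ⟨T, h⟩)).toMonoidHom.comp (S.inc hsub (S.lk_dc hD)) := by
    apply S.hom_ext
    intro x hx
    show S.inc hsub (S.lk_dc hD) (S.act1 S.lk_or (S.lk_dc hD) (S.lk_lt hD hT) h⁻¹ (S.e _ x)) =
      S.e D ⟨T, h⟩ * S.inc hsub (S.lk_dc hD) (S.e _ x) * (S.e D ⟨T, h⟩)⁻¹
    rw [S.act1_e _ _ _ _ x hx, S.inc_e hsub _ _ (S.st_mem (S.lk_lt hD hT) _ _ hx),
      S.inc_e hsub _ _ hx, eq_mul_inv_iff_mul_eq]
    by_cases hx' : S.lt x.1 T
    · have h1 : S.lt (S.st T h⁻¹ x).1 T := (S.st_lt_iff _ _).2 hx'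
      rw [S.e_lt D (S.st T h⁻¹ x) ⟨T, h⟩ (hD T hT _ h1) hT h1, ← S.st_lt h _ h1, ← S.st_mul,
        inv_mul_cancel, S.st_one]
    · rw [S.st_nlt _ x hx']
      exact S.e_dj D x ⟨T, h⟩ hx.1 hT ((S.lk_or _ hx).resolve_left hx')
  exact DFunLike.congr_fun key q

/-- the map of the vertex group `Q(lk) ⋊ G_T` -/
noncomputable def Sys.bet : (S.Q (S.lk D T)) ⋊[S.theta S.lk_or (S.lk_dc hD) (S.lk_lt hD hT)] G T →*
    S.Q D :=
  SemidirectProduct.lift (S.inc S.lk_sub (S.lk_dc hD))
    (S.inj D T) (by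
      intro h
      exact MonoidHom.ext fun q => S.conj hD hT h q)

open Classical in
/-- the family of maps glued from the two vertex groups -/
noncomputable def Sys.glue {K : Type} [Group K] (f : S.Q (rm D T) →* K)
    (g : (S.Q (S.lk D T)) ⋊[S.theta S.lk_or (S.lk_dc hD) (S.lk_lt hD hT)] G T →* K) (i : ι) :
    G i →* K :=
  if h : i = T then (g.comp SemidirectProduct.inr).comp (by rw [h]; exact MonoidHom.id _)
  else f.comp (S.inj (rm D T) i)

theorem Sys.glue_T {K : Type} [Group K] (f : S.Q (rm D T) →* K)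
    (g : (S.Q (S.lk D T)) ⋊[S.theta S.lk_or (S.lk_dc hD) (S.lk_lt hD hT)] G T →* K) (h : G T) :
    S.glue hD hT f g T h = g (SemidirectProduct.inr h) := by
  unfold Sys.glue
  rw [dif_pos rfl]
  rfl

theorem Sys.glue_ne {K : Type} [Group K] (f : S.Q (rm D T) →* K)
    (g : (S.Q (S.lk D T)) ⋊[S.theta S.lk_or (S.lk_dc hD) (S.lk_lt hD hT)] G T →* K)
    (x : Σ i, G i) (hx : x.1 ≠ T) :
    S.glue hD hT f g x.1 x.2 = f (S.e (rm D T) x) := by
  unfold Sys.glue
  rw [dif_neg hx]
  rfl

include hmax in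
theorem Sys.amal (hns : S.NS) : IsAmal (S.inc (S.lk_sub_rm hns) (S.lk_dc hD))
    (SemidirectProduct.inl (φ := S.theta S.lk_or (S.lk_dc hD) (S.lk_lt hD hT)))
    (S.inc rm_sub (S.rm_dc hD hmax)) (S.bet hD hT) where
  comm := by
    intro c
    have : (S.inc rm_sub (S.rm_dc hD hmax)).comp (S.inc (S.lk_sub_rm hns) (S.lk_dc hD)) =
        (S.bet hD hT).comp SemidirectProduct.inl := by
      apply S.hom_ext
      intro x hx
      rw [MonoidHom.comp_apply, MonoidHom.comp_apply, S.inc_e _ _ _ hx,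
        S.inc_e _ _ _ (S.lk_sub_rm hns hx)]
      unfold Sys.bet
      rw [SemidirectProduct.lift_inl, S.inc_e _ _ _ hx]
    exact DFunLike.congr_fun this c
  gen := by
    intro K h1 h2
    apply S.gen
    intro x hx
    by_cases hxT : x.1 = T
    · obtain ⟨i, g⟩ := x
      obtain rfl : i = T := hxT
      have := h2 (SemidirectProduct.inr g)
      unfold Sys.bet at this
      rwa [SemidirectProduct.lift_inr] at this
    · have := h1 (S.e _ x)
      rwa [S.inc_e _ _ _ (show x.1 ∈ rm D T from ⟨hx, hxT⟩)] at this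
  lift := by
    intro K _ f g hfg
    have hgood : S.Good D (S.glue hD hT f g) := by
      refine ⟨?_, ?_, ?_⟩
      · intro i hi x
        have hne : i ≠ T := by rintro rfl; exact hi hT
        rw [show S.glue hD hT f g i x = S.glue hD hT f g (⟨i, x⟩ : Σ i, G i).1 (⟨i, x⟩ : Σ i, G i).2
          from rfl, S.glue_ne hD hT f g ⟨i, x⟩ hne, S.e_out _ _ (fun h => hi h.1), map_one]
      · -- commuting
        have aux : ∀ (x : Σ i, G i) (h : G T), x.1 ∈ D → S.dj x.1 T →
            S.glue hD hT f g x.1 x.2 * S.glue hD hT f g T h =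
              S.glue hD hT f g T h * S.glue hD hT f g x.1 x.2 := by
          intro x h hx hxT
          have hl : x.1 ∈ S.lk D T := ⟨hx, Or.inr hxT⟩
          have hne : x.1 ≠ T := (S.lk_sub_rm hns hl).2
          have hnl : ¬ S.lt x.1 T := fun h2 => S.lt_dj _ _ h2 hxT
          rw [S.glue_T, S.glue_ne hD hT f g x hne,
            ← S.inc_e (S.lk_sub_rm hns) (S.lk_dc hD) x hl, hfg, ← map_mul, ← map_mul]
          congr 1
          have e1 : (SemidirectProduct.inl (S.theta S.lk_or (S.lk_dc hD) (S.lk_lt hD hT) h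
              (S.e (S.lk D T) x)) : (S.Q (S.lk D T)) ⋊[S.theta S.lk_or (S.lk_dc hD)
              (S.lk_lt hD hT)] G T) = SemidirectProduct.inl (S.e (S.lk D T) x) := by
            rw [S.theta_apply, S.act1_e _ _ _ _ x hl, S.st_nlt _ x hnl]
          rw [SemidirectProduct.inl_aut, map_inv, mul_inv_eq_iff_eq_mul] at e1
          exact e1.symm
        intro x y hx hy hxy
        by_cases hxT : x.1 = T
        · obtain ⟨i, u⟩ := x
          obtain rfl : i = T := hxT
          have hyT : y.1 ≠ i := by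
            intro h; rw [h] at hxy; exact hns _ hxy
          exact (aux y u hy (S.dj_symm _ _ hxy)).symm
        · by_cases hyT : y.1 = T
          · obtain ⟨j, v⟩ := y
            obtain rfl : j = T := hyT
            exact aux x v hx hxy
          · rw [S.glue_ne hD hT f g x hxT, S.glue_ne hD hT f g y hyT, ← map_mul, ← map_mul,
              S.e_dj (rm D T) x y ⟨hx, hxT⟩ ⟨hy, hyT⟩ hxy]
      · intro x y hx hy hxy
        have hxT : x.1 ≠ T := by
          intro h; rw [h] at hxy; exact hmax _ hy hxy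
        by_cases hyT : y.1 = T
        · obtain ⟨j, v⟩ := y
          obtain rfl : j = T := hyT
          have hl : x.1 ∈ S.lk D j := ⟨hx, Or.inl hxy⟩
          have hs : S.lt (S.star ⟨j, v⟩ x).1 j := S.star_lt x ⟨j, v⟩ hxy
          have hsl : (S.star ⟨j, v⟩ x).1 ∈ S.lk D j := ⟨hD _ hT _ hs, Or.inl hs⟩
          have hsT : (S.star ⟨j, v⟩ x).1 ≠ j := (S.lk_sub_rm hns hsl).2
          show S.glue hD hT f g x.1 x.2 * S.glue hD hT f g j v = S.glue hD hT f g j v * _
          rw [S.glue_T, S.glue_ne hD hT f g x hxT, S.glue_ne hD hT f g (S.star ⟨j, v⟩ x) hsT,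
            ← S.inc_e (S.lk_sub_rm hns) (S.lk_dc hD) x hl,
            ← S.inc_e (S.lk_sub_rm hns) (S.lk_dc hD) (S.star ⟨j, v⟩ x) hsl, hfg, hfg,
            ← map_mul, ← map_mul]
          congr 1
          have e1 : (SemidirectProduct.inl (S.theta S.lk_or (S.lk_dc hD) (S.lk_lt hD hT) v
              (S.e (S.lk D j) (S.star ⟨j, v⟩ x))) : (S.Q (S.lk D j)) ⋊[S.theta S.lk_or (S.lk_dc hD)
              (S.lk_lt hD hT)] G j) = SemidirectProduct.inl (S.e (S.lk D j) x) := by
            rw [S.theta_apply, S.act1_e _ _ _ _ _ hsl, ← S.st_lt v x hxy, ← S.st_mul,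
              mul_inv_cancel, S.st_one]
          rw [SemidirectProduct.inl_aut, map_inv, mul_inv_eq_iff_eq_mul] at e1
          exact e1.symm
        · have hs : (S.star y x).1 ∈ rm D T := S.rm_dc hD hmax _ ⟨hy, hyT⟩ _ (S.star_lt x y hxy)
          rw [S.glue_ne hD hT f g x hxT, S.glue_ne hD hT f g y hyT,
            S.glue_ne hD hT f g (S.star y x) hs.2, ← map_mul, ← map_mul,
            S.e_lt (rm D T) x y ⟨hx, hxT⟩ ⟨hy, hyT⟩ hxy]
    refine ⟨S.lift hgood, ?_, ?_⟩
    · intro q
      have : (S.lift hgood).comp (S.inc rm_sub (S.rm_dc hD hmax)) = f := by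
        apply S.hom_ext
        intro x hx
        rw [MonoidHom.comp_apply, S.inc_e _ _ _ hx, S.lift_e, S.glue_ne hD hT f g x hx.2]
      exact DFunLike.congr_fun this q
    · intro q
      have : (S.lift hgood).comp (S.bet hD hT) = g := by
        apply SemidirectProduct.hom_ext
        · apply S.hom_ext
          intro x hx
          rw [MonoidHom.comp_apply, MonoidHom.comp_apply, MonoidHom.comp_apply, ← hfg,
            S.inc_e _ _ _ hx]
          unfold Sys.bet
          rw [SemidirectProduct.lift_inl, S.inc_e _ _ _ hx, S.lift_e,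
            S.glue_ne hD hT f g x (S.lk_sub_rm hns hx).2]
        · ext h
          show S.lift hgood (S.bet hD hT (SemidirectProduct.inr h)) = _
          unfold Sys.bet
          rw [SemidirectProduct.lift_inr, S.inj_apply, S.lift_e]
          exact S.glue_T hD hT f g h
      exact DFunLike.congr_fun this q

end step

end Pool.Agent.H349.QP
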