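import Pool.Agent.H349.QP.Inj

/-! Quandle products over downward closed sets of factors. -/

set_option autoImplicit false

namespace Pool.Agent.H349.QP

open Monoid

/-- The data of a quandle product, in abstract form: `lt i j` means that `i` is properly contained in
`j`, `dj i j` means that `i` and `j` are disjoint. -/
structure Sys (ι : Type) (G : ι → Type) [∀ i, Group (G i)] where
  lt : ι → ι → Prop
  dj : ι → ι → Prop
  star : (Σ i, G i) → (Σ i, G i) → (Σ i, G i)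
  lt_trans : ∀ i j k, lt i j → lt j k → lt i k
  lt_irrefl : ∀ i, ¬ lt i i
  dj_symm : ∀ i j, dj i j → dj j i
  dj_lt : ∀ i j k, lt i j → dj j k → dj i k
  lt_dj : ∀ i j, lt i j → ¬ dj i j
  hom : ∀ (j : ι) (h : G j) (i : ι), lt i j → ∃ (i' : ι) (φ : G i →* G i'), lt i' j ∧
    ∀ g, star ⟨j, h⟩ ⟨i, g⟩ = ⟨i', φ g⟩
  one : ∀ (j : ι) (x : Σ i, G i), lt x.1 j → star ⟨j, 1⟩ x = x
  mul : ∀ (j : ι) (h k : G j) (x : Σ i, G i), lt x.1 j →
    star ⟨j, h * k⟩ x = star ⟨j, k⟩ (star ⟨j, h⟩ x)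
  lt_star : ∀ k x y : (Σ i, G i), lt x.1 k.1 → lt y.1 k.1 → lt x.1 y.1 →
    lt (star k x).1 (star k y).1
  dj_star : ∀ k x y : (Σ i, G i), lt x.1 k.1 → lt y.1 k.1 → dj x.1 y.1 →
    dj (star k x).1 (star k y).1
  quandle : ∀ k h g : (Σ i, G i), lt h.1 k.1 → lt g.1 h.1 →
    star k (star h g) = star (star k h) (star k g)

variable {ι : Type} {G : ι → Type} [∀ i, Group (G i)] (S : Sys ι G)

/-- the element of the free product -/
def ofE (x : Σ i, G i) : CoprodI G := CoprodI.of (i := x.1) x.2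

/-- relations of the quandle product over the factors in `D`; the other factors are killed -/
def Sys.rels (D : Set ι) : Set (CoprodI G) :=
  {w | ∃ x : (Σ i, G i), x.1 ∉ D ∧ w = ofE x} ∪
  ({w | ∃ x y : (Σ i, G i), x.1 ∈ D ∧ y.1 ∈ D ∧ S.dj x.1 y.1 ∧
    w = ofE x * ofE y * (ofE y * ofE x)⁻¹} ∪
  {w | ∃ x y : (Σ i, G i), x.1 ∈ D ∧ y.1 ∈ D ∧ S.lt x.1 y.1 ∧
    w = ofE x * ofE y * (ofE y * ofE (S.star y x))⁻¹})

/-- the quandle product over `D` -/
abbrev Sys.Q (D : Set ι) : Type := CoprodI G ⧸ Subgroup.normalClosure (S.rels D)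

/-- generators -/
def Sys.e (D : Set ι) (x : Σ i, G i) : S.Q D := QuotientGroup.mk' _ (ofE x)

/-- the factor -/
def Sys.inj (D : Set ι) (i : ι) : G i →* S.Q D :=
  (QuotientGroup.mk' (Subgroup.normalClosure (S.rels D))).comp CoprodI.of

theorem Sys.inj_apply (D : Set ι) (i : ι) (g : G i) : S.inj D i g = S.e D ⟨i, g⟩ := rfl

theorem Sys.e_one (D : Set ι) (i : ι) : S.e D ⟨i, 1⟩ = 1 := by
  rw [← S.inj_apply, map_one]

theorem Sys.e_mul (D : Set ι) (i : ι) (g h : G i) : S.e D ⟨i, g * h⟩ = S.e D ⟨i, g⟩ * S.e D ⟨i, h⟩ := by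
  rw [← S.inj_apply, map_mul]; rfl

theorem Sys.e_out (D : Set ι) (x : Σ i, G i) (hx : x.1 ∉ D) : S.e D x = 1 :=
  (QuotientGroup.eq_one_iff _).2 (Subgroup.subset_normalClosure (Or.inl ⟨x, hx, rfl⟩))

theorem Sys.e_dj (D : Set ι) (x y : Σ i, G i) (hx : x.1 ∈ D) (hy : y.1 ∈ D) (h : S.dj x.1 y.1) :
    S.e D x * S.e D y = S.e D y * S.e D x := by
  have h1 : QuotientGroup.mk' (Subgroup.normalClosure (S.rels D))
      (ofE x * ofE y * (ofE y * ofE x)⁻¹) = 1 :=
    (QuotientGroup.eq_one_iff _).2 (Subgroup.subset_normalClosure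
      (Or.inr (Or.inl ⟨x, y, hx, hy, h, rfl⟩)))
  rw [map_mul, map_inv, mul_inv_eq_one, map_mul, map_mul] at h1
  exact h1

theorem Sys.e_lt (D : Set ι) (x y : Σ i, G i) (hx : x.1 ∈ D) (hy : y.1 ∈ D) (h : S.lt x.1 y.1) :
    S.e D x * S.e D y = S.e D y * S.e D (S.star y x) := by
  have h1 : QuotientGroup.mk' (Subgroup.normalClosure (S.rels D))
      (ofE x * ofE y * (ofE y * ofE (S.star y x))⁻¹) = 1 :=
    (QuotientGroup.eq_one_iff _).2 (Subgroup.subset_normalClosure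
      (Or.inr (Or.inr ⟨x, y, hx, hy, h, rfl⟩)))
  rw [map_mul, map_inv, mul_inv_eq_one, map_mul, map_mul] at h1
  exact h1

/-- homomorphisms out of the quandle product -/
structure Sys.Good {K : Type} [Group K] (D : Set ι) (f : ∀ i, G i →* K) : Prop where
  out : ∀ i, i ∉ D → ∀ g, f i g = 1
  dj : ∀ x y : (Σ i, G i), x.1 ∈ D → y.1 ∈ D → S.dj x.1 y.1 →
    f x.1 x.2 * f y.1 y.2 = f y.1 y.2 * f x.1 x.2
  lt : ∀ x y : (Σ i, G i), x.1 ∈ D → y.1 ∈ D → S.lt x.1 y.1 →
    f x.1 x.2 * f y.1 y.2 = f y.1 y.2 * f (S.star y x).1 (S.star y x).2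

theorem liftE {K : Type} [Group K] (f : ∀ i, G i →* K) (x : Σ i, G i) :
    CoprodI.lift f (ofE x) = f x.1 x.2 := CoprodI.lift_of f x.2

/-- the universal property -/
def Sys.lift {K : Type} [Group K] {D : Set ι} {f : ∀ i, G i →* K} (hf : S.Good D f) :
    S.Q D →* K :=
  QuotientGroup.lift _ (CoprodI.lift f) (by
    intro x hx
    have : Subgroup.normalClosure (S.rels D) ≤ (CoprodI.lift f).ker := by
      apply Subgroup.normalClosure_le_normal
      rintro _ (⟨x, hx, rfl⟩ | ⟨x, y, hx, hy, h, rfl⟩ | ⟨x, y, hx, hy, h, rfl⟩)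
      · show CoprodI.lift f _ = 1
        rw [liftE]; exact hf.out _ hx _
      · show CoprodI.lift f _ = 1
        rw [map_mul, map_inv, mul_inv_eq_one, map_mul, map_mul, liftE, liftE]
        exact hf.dj x y hx hy h
      · show CoprodI.lift f _ = 1
        rw [map_mul, map_inv, mul_inv_eq_one, map_mul, map_mul, liftE, liftE, liftE]
        exact hf.lt x y hx hy h
    exact this hx)

theorem Sys.lift_e {K : Type} [Group K] {D : Set ι} {f : ∀ i, G i →* K} (hf : S.Good D f)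
    (x : Σ i, G i) : S.lift hf (S.e D x) = f x.1 x.2 := by
  show QuotientGroup.lift _ (CoprodI.lift f) _ (QuotientGroup.mk' _ (ofE x)) = _
  rw [QuotientGroup.mk'_apply, QuotientGroup.lift_mk, liftE]

/-- generation -/
theorem Sys.gen (D : Set ι) (K : Subgroup (S.Q D)) (h : ∀ x : (Σ i, G i), x.1 ∈ D → S.e D x ∈ K) :
    ∀ g, g ∈ K := by
  intro g
  obtain ⟨w, rfl⟩ := QuotientGroup.mk'_surjective _ g
  induction w using CoprodI.induction_on with
  | one => rw [map_one]; exact one_mem K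
  | of i m =>
    by_cases hi : i ∈ D
    · exact h ⟨i, m⟩ hi
    · rw [show QuotientGroup.mk' _ (CoprodI.of m) = S.e D ⟨i, m⟩ from rfl, S.e_out D _ hi]
      exact one_mem K
  | mul x y hx hy => rw [map_mul]; exact mul_mem hx hy

theorem Sys.hom_ext {K : Type} [Group K] {D : Set ι} (f g : S.Q D →* K)
    (h : ∀ x : (Σ i, G i), x.1 ∈ D → f (S.e D x) = g (S.e D x)) : f = g := by
  exact MonoidHom.ext fun x => S.gen D (MonoidHom.eqLocus f g) h x

/-- downward closed -/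
def Sys.DC (D : Set ι) : Prop := ∀ i ∈ D, ∀ j, S.lt j i → j ∈ D

theorem Sys.star_lt (x y : Σ i, G i) (h : S.lt x.1 y.1) : S.lt (S.star y x).1 y.1 := by
  obtain ⟨i', φ, h1, h2⟩ := S.hom y.1 y.2 x.1 h
  have := h2 x.2
  rw [show S.star y x = S.star ⟨y.1, y.2⟩ ⟨x.1, x.2⟩ from rfl, this]
  exact h1

open Classical in
/-- the family of the inclusion -/
noncomputable def Sys.incF (D D' : Set ι) (i : ι) : G i →* S.Q D' :=
  if i ∈ D then S.inj D' i else 1

theorem Sys.incF_mem {D D' : Set ι} (x : Σ i, G i) (h : x.1 ∈ D) :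
    S.incF D D' x.1 x.2 = S.e D' x := by
  unfold Sys.incF
  rw [if_pos h]
  rfl

theorem Sys.inc_good {D D' : Set ι} (h : D ⊆ D') (hD : S.DC D) : S.Good D (S.incF D D') where
  out := by
    intro i hi g
    unfold Sys.incF
    rw [if_neg hi]
    rfl
  dj := by
    intro x y hx hy hxy
    rw [S.incF_mem x hx, S.incF_mem y hy]
    exact S.e_dj D' x y (h hx) (h hy) hxy
  lt := by
    intro x y hx hy hxy
    rw [S.incF_mem x hx, S.incF_mem y hy, S.incF_mem (S.star y x) (hD _ hy _ (S.star_lt x y hxy))]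
    exact S.e_lt D' x y (h hx) (h hy) hxy

/-- the inclusion -/
noncomputable def Sys.inc {D D' : Set ι} (h : D ⊆ D') (hD : S.DC D) : S.Q D →* S.Q D' :=
  S.lift (S.inc_good h hD)

theorem Sys.inc_e {D D' : Set ι} (h : D ⊆ D') (hD : S.DC D) (x : Σ i, G i) (hx : x.1 ∈ D) :
    S.inc h hD (S.e D x) = S.e D' x := by
  unfold Sys.inc
  rw [S.lift_e, S.incF_mem x hx]

/-! ### the action of a maximal factor -/

section act
variable {T : ι} {C : Set ι} (hC : ∀ i ∈ C, S.lt i T ∨ S.dj i T) (hDC : S.DC C)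
  (hlt : ∀ i, S.lt i T → i ∈ C)

open Classical in
/-- `x ↦ h ∗ x` on the factors below `T`, the identity on the other factors -/
noncomputable def Sys.st (S : Sys ι G) (T : ι) (h : G T) (x : Σ i, G i) : Σ i, G i :=
  if S.lt x.1 T then S.star ⟨T, h⟩ x else x

theorem Sys.st_lt (h : G T) (x : Σ i, G i) (hx : S.lt x.1 T) : S.st T h x = S.star ⟨T, h⟩ x := by
  unfold Sys.st; rw [if_pos hx]

theorem Sys.st_nlt (h : G T) (x : Σ i, G i) (hx : ¬ S.lt x.1 T) : S.st T h x = x := by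
  unfold Sys.st; rw [if_neg hx]

theorem Sys.st_lt_iff (h : G T) (x : Σ i, G i) : S.lt (S.st T h x).1 T ↔ S.lt x.1 T := by
  by_cases hx : S.lt x.1 T
  · rw [S.st_lt h x hx]
    exact ⟨fun _ => hx, fun _ => S.star_lt x ⟨T, h⟩ hx⟩
  · rw [S.st_nlt h x hx]

theorem Sys.st_one (x : Σ i, G i) : S.st T 1 x = x := by
  by_cases hx : S.lt x.1 T
  · rw [S.st_lt _ x hx, S.one _ _ hx]
  · rw [S.st_nlt _ x hx]

theorem Sys.st_mul (h k : G T) (x : Σ i, G i) : S.st T (h * k) x = S.st T k (S.st T h x) := by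
  by_cases hx : S.lt x.1 T
  · rw [S.st_lt _ x hx, S.mul _ _ _ _ hx, S.st_lt h x hx, S.st_lt k _ (S.star_lt x ⟨T, h⟩ hx)]
  · rw [S.st_nlt _ x hx, S.st_nlt h x hx, S.st_nlt k x hx]

theorem Sys.st_hom (h : G T) (i : ι) : ∃ (i' : ι) (φ : G i →* G i'),
    ∀ g, S.st T h ⟨i, g⟩ = ⟨i', φ g⟩ := by
  by_cases hx : S.lt i T
  · obtain ⟨i', φ, _, h2⟩ := S.hom T h i hx
    exact ⟨i', φ, fun g => by rw [S.st_lt _ _ hx]; exact h2 g⟩
  · exact ⟨i, MonoidHom.id _, fun g => S.st_nlt h ⟨i, g⟩ hx⟩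

include hlt in
theorem Sys.st_mem (h : G T) (x : Σ i, G i) (hx : x.1 ∈ C) : (S.st T h x).1 ∈ C := by
  by_cases hx' : S.lt x.1 T
  · rw [S.st_lt _ x hx']
    exact hlt _ (S.star_lt x ⟨T, h⟩ hx')
  · rw [S.st_nlt _ x hx']; exact hx

open Classical in
/-- one automorphism, on factors -/
noncomputable def Sys.actF (S : Sys ι G) (T : ι) (C : Set ι) (h : G T) (i : ι) : G i →* S.Q C :=
  if i ∈ C then
    (S.inj C (S.st_hom h i).choose).comp (S.st_hom h i).choose_spec.choose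
  else 1

theorem Sys.actF_mem (h : G T) (x : Σ i, G i) (hx : x.1 ∈ C) :
    S.actF T C h x.1 x.2 = S.e C (S.st T h x) := by
  unfold Sys.actF
  rw [if_pos hx]
  have := (S.st_hom h x.1).choose_spec.choose_spec x.2
  rw [show S.st T h x = S.st T h ⟨x.1, x.2⟩ from rfl, this]
  rfl

include hC hDC hlt in
theorem Sys.act_good (h : G T) : S.Good C (S.actF T C h) where
  out := by
    intro i hi g
    unfold Sys.actF
    rw [if_neg hi]; rfl
  dj := by
    intro x y hx hy hxy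
    rw [S.actF_mem h x hx, S.actF_mem h y hy]
    apply S.e_dj C _ _ (S.st_mem hlt h x hx) (S.st_mem hlt h y hy)
    by_cases hx' : S.lt x.1 T
    · by_cases hy' : S.lt y.1 T
      · rw [S.st_lt h x hx', S.st_lt h y hy']
        exact S.dj_star ⟨T, h⟩ x y hx' hy' hxy
      · rw [S.st_nlt h y hy']
        have h1 : S.dj y.1 T := (hC _ hy).resolve_left hy'
        rw [S.st_lt h x hx']
        exact S.dj_lt _ _ _ (S.star_lt x ⟨T, h⟩ hx') (S.dj_symm _ _ h1)
    · by_cases hy' : S.lt y.1 T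
      · rw [S.st_nlt h x hx', S.st_lt h y hy']
        have h1 : S.dj x.1 T := (hC _ hx).resolve_left hx'
        exact S.dj_symm _ _ (S.dj_lt _ _ _ (S.star_lt y ⟨T, h⟩ hy') (S.dj_symm _ _ h1))
      · rw [S.st_nlt h x hx', S.st_nlt h y hy']; exact hxy
  lt := by
    intro x y hx hy hxy
    have hsx : (S.star y x).1 ∈ C := hDC _ hy _ (S.star_lt x y hxy)
    rw [S.actF_mem h x hx, S.actF_mem h y hy, S.actF_mem h (S.star y x) hsx]
    by_cases hy' : S.lt y.1 T
    · have hx' : S.lt x.1 T := S.lt_trans _ _ _ hxy hy'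
      have hsx' : S.lt (S.star y x).1 T := S.lt_trans _ _ _ (S.star_lt x y hxy) hy'
      have e1 : S.st T h (S.star y x) = S.star (S.st T h y) (S.st T h x) := by
        rw [S.st_lt h _ hsx', S.st_lt h x hx', S.st_lt h y hy']
        exact S.quandle ⟨T, h⟩ y x hy' hxy
      rw [e1]
      apply S.e_lt C _ _ (S.st_mem hlt h x hx) (S.st_mem hlt h y hy)
      rw [S.st_lt h x hx', S.st_lt h y hy']
      exact S.lt_star ⟨T, h⟩ x y hx' hy' hxy
    · have h1 : S.dj y.1 T := (hC _ hy).resolve_left hy'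
      have hx' : ¬ S.lt x.1 T := fun h2 => S.lt_dj _ _ h2 (S.dj_lt _ _ _ hxy h1)
      have hsx' : ¬ S.lt (S.star y x).1 T := fun h2 =>
        S.lt_dj _ _ h2 (S.dj_lt _ _ _ (S.star_lt x y hxy) h1)
      rw [S.st_nlt h x hx', S.st_nlt h y hy', S.st_nlt h _ hsx']
      exact S.e_lt C _ _ hx hy hxy

/-- one endomorphism -/
noncomputable def Sys.act1 (h : G T) : S.Q C →* S.Q C := S.lift (S.act_good hC hDC hlt h)

theorem Sys.act1_e (h : G T) (x : Σ i, G i) (hx : x.1 ∈ C) :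
    S.act1 hC hDC hlt h (S.e C x) = S.e C (S.st T h x) := by
  unfold Sys.act1
  rw [S.lift_e, S.actF_mem h x hx]

theorem Sys.act1_one (q : S.Q C) : S.act1 hC hDC hlt 1 q = q := by
  have : S.act1 hC hDC hlt 1 = MonoidHom.id _ := by
    apply S.hom_ext
    intro x hx
    rw [S.act1_e hC hDC hlt _ x hx, S.st_one]; rfl
  rw [this]; rfl

theorem Sys.act1_mul (h k : G T) (q : S.Q C) :
    S.act1 hC hDC hlt (h * k) q = S.act1 hC hDC hlt k (S.act1 hC hDC hlt h q) := by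
  have : S.act1 hC hDC hlt (h * k) = (S.act1 hC hDC hlt k).comp (S.act1 hC hDC hlt h) := by
    apply S.hom_ext
    intro x hx
    rw [MonoidHom.comp_apply, S.act1_e hC hDC hlt _ x hx, S.act1_e hC hDC hlt _ x hx,
      S.act1_e hC hDC hlt _ _ (S.st_mem hlt h x hx), S.st_mul]
  rw [this]; rfl

/-- the action of the maximal factor: `h` acts by `x ↦ h⁻¹ ∗ x` -/
noncomputable def Sys.theta : G T →* MulAut (S.Q C) where
  toFun h :=
    { toFun := S.act1 hC hDC hlt h⁻¹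
      invFun := S.act1 hC hDC hlt h
      left_inv := fun q => by rw [← S.act1_mul, inv_mul_cancel, S.act1_one]
      right_inv := fun q => by rw [← S.act1_mul, mul_inv_cancel, S.act1_one]
      map_mul' := fun x y => map_mul _ _ _ }
  map_one' := by
    ext q
    show S.act1 hC hDC hlt 1⁻¹ q = q
    rw [inv_one, S.act1_one]
  map_mul' h k := by
    ext q
    show S.act1 hC hDC hlt (h * k)⁻¹ q = S.act1 hC hDC hlt h⁻¹ (S.act1 hC hDC hlt k⁻¹ q)
    rw [mul_inv_rev, S.act1_mul]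

theorem Sys.theta_apply (h : G T) (q : S.Q C) :
    S.theta hC hDC hlt h q = S.act1 hC hDC hlt h⁻¹ q := rfl

end act

end Pool.Agent.H349.QP
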